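import Pool.Agent.H.MP_0cad2f_co.helper94.Span
import Pool.Agent.H.MP_0cad2f_co.helper11.Gauss2

/-!
Almost surely every set of `d` constraints is a basis; with probability at least `1 - 2 ^ (-m)`
the first `m d` constraints span robustly.
-/

set_option autoImplicit false

namespace Pool.Agent.H.MP_0cad2f_co.helper94

open MeasureTheory ProbabilityTheory Finset Matrix
open scoped NNReal ENNReal
open Pool.Agent.H.MP_0cad2f_co.helper47 (Spans gau noise n2 Idx mat nu vtx Good n2_sq n2_nonneg n2_smul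
  dot_nu eq_nu sum_smul_nu eq_of_dot_eq n2_sum_le abs_dot_le dot_self_nonneg)

variable {n d : ℕ}

/-- The direction adding the identity to the rows of `B`. -/
def dir (B : Idx n d) : Fin n → Fin d → ℝ := fun i j => if i = B j then 1 else 0

theorem mat_dir (a : Fin n → Fin d → ℝ) (B : Idx n d) (t : ℝ) :
    mat (a + t • dir B) B = mat a B + t • (1 : Matrix (Fin d) (Fin d) ℝ) := by
  ext k j
  simp only [mat, dir, Pi.add_apply, Pi.smul_apply, smul_eq_mul, Matrix.add_apply,
    Matrix.smul_apply, Matrix.one_apply]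
  congr 2
  by_cases h : k = j
  · rw [if_pos h, if_pos (by rw [h])]
  · rw [if_neg h, if_neg (fun h2 => h (B.injective h2))]

theorem finite_zeros (M : Matrix (Fin d) (Fin d) ℝ) :
    {t : ℝ | (M + t • (1 : Matrix (Fin d) (Fin d) ℝ)).det = 0}.Finite := by
  have h1 : ((-M).charpoly.rootSet ℝ).Finite := Polynomial.rootSet_finite _ _
  refine h1.subset fun t ht => ?_
  rw [Polynomial.mem_rootSet]
  refine ⟨(Matrix.charpoly_monic _).ne_zero, ?_⟩
  rw [Polynomial.coe_aeval_eq_eval, Matrix.eval_charpoly]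
  have h2 : Matrix.scalar (Fin d) t - -M = M + t • (1 : Matrix (Fin d) (Fin d) ℝ) := by
    rw [sub_neg_eq_add, add_comm]
    congr 1
    ext i j
    simp [Matrix.diagonal, Matrix.one_apply]
  rw [h2]
  exact ht

theorem volume_singular (B : Idx n d) :
    volume {a : Fin n → Fin d → ℝ | (mat a B).det = 0} = 0 := by
  set S : Set (Fin n → Fin d → ℝ) := {a | (mat a B).det = 0} with hS
  have hSm : MeasurableSet S := helper11.TD.measurable_det B (measurableSet_singleton 0)
  have hind : Measurable (S.indicator (1 : (Fin n → Fin d → ℝ) → ℝ≥0∞)) :=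
    measurable_one.indicator hSm
  have h1 : ∀ t : ℝ, ∫⁻ a : Fin n → Fin d → ℝ, S.indicator 1 (a + t • dir B) =
      volume S := by
    intro t
    rw [helper11.TD.lint_translate (t • dir B) (S.indicator 1), lintegral_indicator_one hSm]
  have h2 : ∫⁻ t in Set.Icc (0 : ℝ) 1, ∫⁻ a : Fin n → Fin d → ℝ,
      S.indicator (1 : (Fin n → Fin d → ℝ) → ℝ≥0∞) (a + t • dir B) = volume S := by
    simp_rw [h1]
    rw [setLIntegral_const, Real.volume_Icc]
    simp
  rw [← h2, lintegral_lintegral_swap]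
  · have h3 : ∀ a : Fin n → Fin d → ℝ, ∫⁻ t in Set.Icc (0 : ℝ) 1,
        S.indicator (1 : (Fin n → Fin d → ℝ) → ℝ≥0∞) (a + t • dir B) = 0 := by
      intro a
      have h4 : {t : ℝ | a + t • dir B ∈ S}.Finite := by
        refine (finite_zeros (mat a B)).subset fun t ht => ?_
        have h5 : (mat (a + t • dir B) B).det = 0 := ht
        rw [mat_dir] at h5
        exact h5
      have h6 : (fun t : ℝ => S.indicator (1 : (Fin n → Fin d → ℝ) → ℝ≥0∞) (a + t • dir B)) =
          {t : ℝ | a + t • dir B ∈ S}.indicator 1 := by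
        funext t
        by_cases ht : a + t • dir B ∈ S
        · rw [Set.indicator_of_mem ht, Set.indicator_of_mem
            (show t ∈ {t : ℝ | a + t • dir B ∈ S} from ht)]
          rfl
        · rw [Set.indicator_of_notMem ht, Set.indicator_of_notMem
            (show t ∉ {t : ℝ | a + t • dir B ∈ S} from ht)]
      rw [h6, lintegral_indicator_one h4.measurableSet]
      exact le_antisymm ((Measure.restrict_apply_le _ _).trans (h4.measure_zero _).le) bot_le
    simp_rw [h3]
    simp
  · refine Measurable.aemeasurable ?_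
    have h7 : Measurable fun p : ℝ × (Fin n → Fin d → ℝ) => p.2 + p.1 • dir B := by
      fun_prop
    exact hind.comp h7

/-- (9a) -/
theorem ae_det_ne_zero (c : Fin n → Fin d → ℝ) {σ : ℝ} (hσ : 0 < σ) (B : Idx n d) :
    ∀ᵐ a ∂(noise c σ), (mat a B).det ≠ 0 := by
  set v : ℝ≥0 := Real.toNNReal (σ ^ 2) with hv
  have hv' : (v : ℝ) = σ ^ 2 := by rw [hv, Real.coe_toNNReal _ (by positivity)]
  have hv0 : v ≠ 0 := by
    intro h
    have h2 : (v : ℝ) = 0 := by rw [h]; rfl
    rw [hv'] at h2
    have : 0 < σ ^ 2 := by positivity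
    linarith
  have h1 : noise c σ ≪ (volume : Measure (Fin n → Fin d → ℝ)) := by
    have h2 : noise c σ = (volume : Measure (Fin n → Fin d → ℝ)).withDensity
        fun a => ∏ i, ∏ j, gaussianPDF (c i j) v (a i j) := helper11.TD.noise_density c hv0
    rw [h2]
    exact withDensity_absolutelyContinuous _ _
  rw [ae_iff]
  simp only [not_not]
  exact h1 (volume_singular B)

/-- (9b) Blocks, sharp form. -/
theorem spans_fail' (c : Fin n → Fin d → ℝ) {σ T : ℝ} (hσ : 0 < σ) (hT : 0 < T)
    {m : ℕ} (hm : m * d ≤ n) :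
    noise c σ {a | ¬ Spans a (Finset.univ.filter fun i : Fin n => (i : ℕ) < m * d) T} ≤
      ENNReal.ofReal (d / (σ * T)) ^ m := by
  have hae : ∀ᵐ a ∂(noise c σ), ∀ B : Idx n d, (mat a B).det ≠ 0 := by
    rw [ae_all_iff]
    exact fun B => ae_det_ne_zero c hσ B
  refine le_trans (measure_mono_ae ?_) (noise_fail c hσ hT m hm)
  filter_upwards [hae] with a ha hns
  change a ∈ Fail n d m T
  intro j hj h
  by_contra hcon
  push Not at hcon
  refine hns (spans_of_block (B := blk j h) (fun k => ?_) (ha _) fun k => ?_)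
  · rw [Finset.mem_filter]
    refine ⟨Finset.mem_univ _, ?_⟩
    rw [blk_val]
    have h2 : (j + 1) * d ≤ m * d := Nat.mul_le_mul_right d hj
    have h3 := k.2
    rw [add_mul, one_mul] at h2
    omega
  · by_contra hlt
    exact hcon k ⟨ha _, not_le.mp hlt⟩

/-- (9b) Blocks. -/
theorem spans_fail (c : Fin n → Fin d → ℝ) {σ T : ℝ} (hσ : 0 < σ) (hd : 1 ≤ d)
    (hσd : σ ≤ 1 / (6 * Real.sqrt (d * Real.log 2))) (_hc : ∀ i, n2 (c i) ≤ 1)
    (hT : 200 * d ≤ σ ^ 2 * T) {m : ℕ} (hm : m * d ≤ n) :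
    noise c σ {a | ¬ Spans a (Finset.univ.filter fun i : Fin n => (i : ℕ) < m * d) T} ≤
      ENNReal.ofReal ((1 / 2) ^ m) := by
  have hd1 : (1 : ℝ) ≤ d := by exact_mod_cast hd
  have hσ1 : σ ≤ 1 := by
    have hl : (0.6931471803 : ℝ) < Real.log 2 := Real.log_two_gt_d9
    have h1 : (1 / 6 : ℝ) ≤ Real.sqrt (d * Real.log 2) := by
      apply Real.le_sqrt_of_sq_le
      nlinarith
    refine hσd.trans ?_
    rw [div_le_one (by linarith)]
    linarith
  have hT0 : 0 < T := by
    by_contra hcon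
    have : σ ^ 2 * T ≤ 0 := mul_nonpos_of_nonneg_of_nonpos (sq_nonneg σ) (not_lt.mp hcon)
    linarith
  have h2 : 200 * d ≤ σ * T := by
    refine hT.trans ?_
    have h3 : σ ^ 2 ≤ σ := by nlinarith
    exact mul_le_mul_of_nonneg_right h3 hT0.le
  have h3 : (d : ℝ) / (σ * T) ≤ 1 / 2 := by
    rw [div_le_div_iff₀ (by positivity) (by norm_num)]
    linarith
  refine (spans_fail' c hσ hT0 hm).trans ?_
  rw [ENNReal.ofReal_pow (by norm_num)]
  exact pow_le_pow_left' (ENNReal.ofReal_le_ofReal h3) m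

end Pool.Agent.H.MP_0cad2f_co.helper94
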