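import Pool.Agent.H.MP_0cad2f_co.helper94.Small
import Pool.Agent.H.MP_0cad2f_co.helper47.Obj

/-!
Disjoint blocks of `d` constraints: with probability at least `1 - 2 ^ (-m)` one of `m` blocks
spans robustly.
-/

set_option autoImplicit false

namespace Pool.Agent.H.MP_0cad2f_co.helper94

open MeasureTheory ProbabilityTheory Finset Matrix
open scoped NNReal ENNReal
open Pool.Agent.H.MP_0cad2f_co.helper47 (Spans gau noise n2 Idx mat nu vtx Good n2_sq n2_nonneg n2_smul
  dot_nu eq_nu sum_smul_nu eq_of_dot_eq n2_sum_le abs_dot_le dot_self_nonneg)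

variable {n d : ℕ}

theorem measurable_n2 : Measurable (n2 : (Fin d → ℝ) → ℝ) := by
  have : Continuous (n2 : (Fin d → ℝ) → ℝ) := by
    unfold n2
    simp only [dotProduct]
    fun_prop
  exact this.measurable

/-- The `k`-th dual vector of `B` is long. -/
def Long (B : Idx n d) (k : Fin d) (T : ℝ) : Set (Fin n → Fin d → ℝ) :=
  {a | (mat a B).det ≠ 0 ∧ T < n2 (nu a B k)}

theorem measurableSet_long (B : Idx n d) (k : Fin d) (T : ℝ) : MeasurableSet (Long B k T) := by
  refine MeasurableSet.inter ?_ ?_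
  · exact (helper11.TD.measurable_det B (measurableSet_singleton 0)).compl
  · exact measurableSet_lt measurable_const
      (measurable_n2.comp (helper11.TD.measurable_nu B k))

theorem mat_congr {a b : Fin n → Fin d → ℝ} {B : Idx n d} (h : ∀ k, a (B k) = b (B k)) :
    mat a B = mat b B := by
  funext k j
  exact congrFun (h k) j

theorem nu_congr {a b : Fin n → Fin d → ℝ} {B : Idx n d} (h : ∀ k, a (B k) = b (B k)) (k : Fin d) :
    nu a B k = nu b B k := by
  unfold nu
  rw [mat_congr h]

/-- Resampling the `k`-th constraint of `B`: its dual vector is long with small conditional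
probability. -/
theorem gau_long (a c : Fin n → Fin d → ℝ) {σ T : ℝ} (hσ : 0 < σ) (hT : 0 < T) (B : Idx n d)
    (k : Fin d) :
    gau (c (B k)) σ {x | Function.update a (B k) x ∈ Long B k T} ≤
      ENNReal.ofReal (1 / (σ * T)) := by
  obtain ⟨u, hu, hul⟩ := exists_normal a B k
  have h1 : {x | Function.update a (B k) x ∈ Long B k T} ⊆ {x | |u ⬝ᵥ x| ≤ 1 / T} := by
    intro x hx
    obtain ⟨hdet, hlt⟩ := hx
    set b := Function.update a (B k) x with hb
    have hbk : b (B k) = x := by rw [hb, Function.update_self]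
    have hbl : ∀ l, l ≠ k → b (B l) ⬝ᵥ u = 0 := by
      intro l hl
      rw [hb, Function.update_of_ne (fun h => hl (B.injective h))]
      exact hul l hl
    have hne : b (B k) ⬝ᵥ u ≠ 0 := by
      intro h0
      have hu0 : u = 0 := by
        apply eq_of_dot_eq hdet
        intro l
        rw [dotProduct_zero]
        by_cases hl : l = k
        · rw [hl]; exact h0
        · exact hbl l hl
      rw [hu0] at hu
      have : n2 (0 : Fin d → ℝ) = 0 := by simp [n2]
      rw [this] at hu
      exact zero_ne_one hu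
    rw [nu_of_normal hdet hbl hne, n2_smul, hu, mul_one, hbk, abs_inv, dotProduct_comm] at hlt
    rw [hbk, dotProduct_comm] at hne
    have hpos : 0 < |u ⬝ᵥ x| := abs_pos.mpr hne
    change |u ⬝ᵥ x| ≤ 1 / T
    rw [le_div_iff₀ hT]
    have h2 := mul_lt_mul_of_pos_right hlt hpos
    rw [inv_mul_cancel₀ hpos.ne'] at h2
    linarith
  refine (measure_mono h1).trans ((gau_small _ hσ hu _).trans (le_of_eq ?_))
  congr 1
  field_simp

/-- The same in the presence of an event not depending on that constraint. -/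
theorem noise_long (c : Fin n → Fin d → ℝ) {σ T : ℝ} (hσ : 0 < σ) (hT : 0 < T) (B : Idx n d)
    (k : Fin d) {S : Set (Fin n → Fin d → ℝ)} (hS : MeasurableSet S)
    (hS2 : ∀ a x, Function.update a (B k) x ∈ S ↔ a ∈ S) :
    noise c σ (S ∩ Long B k T) ≤ ENNReal.ofReal (1 / (σ * T)) * noise c σ S := by
  have hL := measurableSet_long B k T
  rw [← lintegral_indicator_one (hS.inter hL), helper11.TD.noise_update c σ (B k)
    (measurable_one.indicator (hS.inter hL)), ← lintegral_indicator_one hS,
    ← lintegral_const_mul' _ _ ENNReal.ofReal_ne_top]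
  refine lintegral_mono fun a => ?_
  by_cases ha : a ∈ S
  · rw [Set.indicator_of_mem ha, Pi.one_apply, mul_one]
    have hpre : MeasurableSet {x : Fin d → ℝ | Function.update a (B k) x ∈ Long B k T} :=
      hL.preimage (measurable_update a)
    have h1 : (fun x : Fin d → ℝ => (S ∩ Long B k T).indicator
        (1 : (Fin n → Fin d → ℝ) → ℝ≥0∞) (Function.update a (B k) x)) =
        {x : Fin d → ℝ | Function.update a (B k) x ∈ Long B k T}.indicator 1 := by
      funext x
      by_cases hx : Function.update a (B k) x ∈ Long B k T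
      · rw [Set.indicator_of_mem (show Function.update a (B k) x ∈ S ∩ Long B k T from
          ⟨(hS2 a x).mpr ha, hx⟩), Set.indicator_of_mem
          (show x ∈ {x : Fin d → ℝ | Function.update a (B k) x ∈ Long B k T} from hx)]
        rfl
      · rw [Set.indicator_of_notMem (fun h => hx h.2), Set.indicator_of_notMem
          (show x ∉ {x : Fin d → ℝ | Function.update a (B k) x ∈ Long B k T} from hx)]
    rw [h1, lintegral_indicator_one hpre]
    exact gau_long a c hσ hT B k
  · have h1 : (fun x : Fin d → ℝ => (S ∩ Long B k T).indicator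
        (1 : (Fin n → Fin d → ℝ) → ℝ≥0∞) (Function.update a (B k) x)) = fun _ => 0 := by
      funext x
      rw [Set.indicator_of_notMem (fun h => ha ((hS2 a x).mp h.1))]
    rw [h1]
    simp

/-- The `j`-th block. -/
def blk (j : ℕ) (h : (j + 1) * d ≤ n) : Idx n d :=
  OrderEmbedding.ofStrictMono
    (fun k : Fin d => ⟨j * d + k, by have := k.2; rw [add_mul, one_mul] at h; omega⟩)
    (fun k l hkl => by
      rw [Fin.lt_def] at hkl ⊢
      simpa using hkl)

theorem blk_val (j : ℕ) (h : (j + 1) * d ≤ n) (k : Fin d) :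
    (blk j h k : ℕ) = j * d + k := rfl

/-- In each of the first `m` blocks some dual vector is long. -/
def Fail (n d : ℕ) (m : ℕ) (T : ℝ) : Set (Fin n → Fin d → ℝ) :=
  {a | ∀ j, j < m → ∀ h : (j + 1) * d ≤ n, ∃ k, a ∈ Long (blk j h) k T}

theorem measurableSet_fail (m : ℕ) (T : ℝ) : MeasurableSet (Fail n d m T) := by
  unfold Fail
  rw [Set.ofPred_forall]
  refine MeasurableSet.iInter fun j => ?_
  rw [Set.ofPred_forall]
  refine MeasurableSet.iInter fun _ => ?_
  rw [Set.ofPred_forall]
  refine MeasurableSet.iInter fun h => ?_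
  have h1 : {a : Fin n → Fin d → ℝ | ∃ k, a ∈ Long (blk j h) k T} =
      ⋃ k, Long (blk j h) k T := by
    ext a
    simp
  rw [h1]
  exact MeasurableSet.iUnion fun k => measurableSet_long _ _ _

theorem long_congr {a b : Fin n → Fin d → ℝ} {B : Idx n d} (h : ∀ k, a (B k) = b (B k))
    (k : Fin d) (T : ℝ) : a ∈ Long B k T ↔ b ∈ Long B k T := by
  unfold Long
  rw [Set.mem_ofPred_eq, Set.mem_ofPred_eq, mat_congr h, nu_congr h]

theorem fail_update {m : ℕ} (T : ℝ) (h : (m + 1) * d ≤ n) (k : Fin d) (a : Fin n → Fin d → ℝ)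
    (x : Fin d → ℝ) : Function.update a (blk m h k) x ∈ Fail n d m T ↔ a ∈ Fail n d m T := by
  unfold Fail
  rw [Set.mem_ofPred_eq, Set.mem_ofPred_eq]
  refine forall_congr' fun j => forall_congr' fun hj => forall_congr' fun hj2 =>
    exists_congr fun l => ?_
  apply long_congr
  intro r
  rw [Function.update_of_ne]
  intro he
  have h1 := congrArg Fin.val he
  rw [blk_val, blk_val] at h1
  have h2 : (j + 1) * d ≤ m * d := Nat.mul_le_mul_right d hj
  have h3 := r.2
  rw [add_mul, one_mul] at h2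
  omega

theorem noise_fail (c : Fin n → Fin d → ℝ) {σ T : ℝ} (hσ : 0 < σ) (hT : 0 < T) (m : ℕ)
    (hm : m * d ≤ n) :
    noise c σ (Fail n d m T) ≤ ENNReal.ofReal (d / (σ * T)) ^ m := by
  induction m with
  | zero =>
    rw [pow_zero]
    exact prob_le_one
  | succ m ih =>
    have hm' : m * d ≤ n := le_trans (Nat.mul_le_mul_right d (Nat.le_succ m)) hm
    have h1 : Fail n d (m + 1) T ⊆ ⋃ k, Fail n d m T ∩ Long (blk m hm) k T := by
      intro a ha
      obtain ⟨k, hk⟩ := ha m (Nat.lt_succ_self m) hm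
      exact Set.mem_iUnion.mpr ⟨k, fun j hj => ha j (hj.trans (Nat.lt_succ_self m)), hk⟩
    calc noise c σ (Fail n d (m + 1) T)
        ≤ ∑ k, noise c σ (Fail n d m T ∩ Long (blk m hm) k T) :=
          (measure_mono h1).trans (measure_iUnion_fintype_le _ _)
      _ ≤ ∑ _k : Fin d, ENNReal.ofReal (1 / (σ * T)) * noise c σ (Fail n d m T) :=
          Finset.sum_le_sum fun k _ => noise_long c hσ hT _ k (measurableSet_fail m T)
            fun a x => fail_update T hm k a x
      _ = ENNReal.ofReal (d / (σ * T)) * noise c σ (Fail n d m T) := by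
          rw [Finset.sum_const, Finset.card_univ, Fintype.card_fin, nsmul_eq_mul, ← mul_assoc]
          congr 1
          rw [← ENNReal.ofReal_natCast, ← ENNReal.ofReal_mul (Nat.cast_nonneg d)]
          congr 1
          ring
      _ ≤ ENNReal.ofReal (d / (σ * T)) * ENNReal.ofReal (d / (σ * T)) ^ m := by
          gcongr
          exact ih hm'
      _ = ENNReal.ofReal (d / (σ * T)) ^ (m + 1) := by rw [pow_succ']

/-- A well conditioned block spans robustly. -/
theorem spans_of_block {a : Fin n → Fin d → ℝ} {T : ℝ} {G : Finset (Fin n)} {B : Idx n d}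
    (hB : ∀ k, B k ∈ G) (hdet : (mat a B).det ≠ 0) (hT : ∀ k, n2 (nu a B k) ≤ T) :
    Spans a G T := by
  classical
  intro x
  have h1 : n2 x ≤ ∑ k, n2 ((a (B k) ⬝ᵥ x) • nu a B k) := by
    conv_lhs => rw [← sum_smul_nu hdet x]
    exact n2_sum_le _ _
  have h2 : ∀ k, n2 ((a (B k) ⬝ᵥ x) • nu a B k) ≤ T * |a (B k) ⬝ᵥ x| := by
    intro k
    rw [n2_smul, mul_comm]
    exact mul_le_mul_of_nonneg_right (hT k) (abs_nonneg _)
  have h3 : ∑ k, |a (B k) ⬝ᵥ x| ≤ ∑ i ∈ G, |a i ⬝ᵥ x| := by
    have h4 : ∑ k, |a (B k) ⬝ᵥ x| = ∑ i ∈ univ.image B, |a i ⬝ᵥ x| := by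
      rw [Finset.sum_image fun k _ l _ h => B.injective h]
    rw [h4]
    refine Finset.sum_le_sum_of_subset_of_nonneg ?_ fun i _ _ => abs_nonneg _
    intro i hi
    obtain ⟨k, _, rfl⟩ := Finset.mem_image.mp hi
    exact hB k
  rcases isEmpty_or_nonempty (Fin d) with hd | ⟨⟨k₀⟩⟩
  · have hx : n2 x = 0 := by simp [n2, dotProduct]
    rw [hx]
    simp
  have hT0 : 0 ≤ T := (n2_nonneg _).trans (hT k₀)
  calc n2 x ≤ ∑ k, n2 ((a (B k) ⬝ᵥ x) • nu a B k) := h1
    _ ≤ ∑ k, T * |a (B k) ⬝ᵥ x| := Finset.sum_le_sum fun k _ => h2 k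
    _ = T * ∑ k, |a (B k) ⬝ᵥ x| := by rw [Finset.mul_sum]
    _ ≤ T * ∑ i ∈ G, |a i ⬝ᵥ x| := mul_le_mul_of_nonneg_left h3 hT0

end Pool.Agent.H.MP_0cad2f_co.helper94
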