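import Pool.Agent.H.MP_0cad2f_co.helper47.Defs
import Pool.Agent.H.MP_0cad2f_co.helper11.Gauss
import Pool.Agent.H.MP_0cad2f_co.helper39.Average

/-!
Vertices far away are rare.
-/

set_option autoImplicit false

namespace Pool.Agent.H.MP_0cad2f_co.helper94

open MeasureTheory ProbabilityTheory Finset Matrix
open scoped NNReal ENNReal
open Pool.Agent.H.MP_0cad2f_co.helper47 (gau noise n2 Idx mat nu vtx Good n2_sq n2_nonneg n2_smul
  dot_nu eq_nu eq_vtx dot_vtx det_ne_zero_of_dual dot_nu_self dot_nu_ne)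

variable {n d : ℕ}

/-- The direction in which all constraints of `I` move. -/
def push (I : Idx n d) (j : Fin d) (s : ℝ) : Fin n → Fin d → ℝ :=
  fun i => if i ∈ Finset.univ.image I then s • Pi.single j 1 else 0

theorem push_mem (I : Idx n d) (j : Fin d) (s : ℝ) (k : Fin d) :
    push I j s (I k) = s • Pi.single j 1 := by
  rw [push, if_pos (Finset.mem_image_of_mem _ (Finset.mem_univ k))]

theorem push_notMem (I : Idx n d) (j : Fin d) (s : ℝ) {i : Fin n} (hi : ∀ k, I k ≠ i) :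
    push I j s i = 0 := by
  rw [push, if_neg]
  intro h
  obtain ⟨k, _, hk⟩ := Finset.mem_image.mp h
  exact hi k hk

theorem n2_single (j : Fin d) : n2 (Pi.single j (1 : ℝ)) = 1 := by
  rw [n2]
  simp

theorem sum_n2_push (I : Idx n d) (j : Fin d) {s : ℝ} (hs : |s| = 1) :
    ∑ i, n2 (push I j s i) = d := by
  have h1 : ∀ i, n2 (push I j s i) = if i ∈ Finset.univ.image I then 1 else 0 := by
    intro i
    rw [push]
    split_ifs with h
    · rw [n2_smul, hs, n2_single, mul_one]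
    · simp [n2]
  rw [Finset.sum_congr rfl fun i _ => h1 i, Finset.sum_ite_mem, Finset.univ_inter,
    Finset.sum_const, Finset.card_image_of_injective _ I.injective, Finset.card_univ,
    Fintype.card_fin, nsmul_eq_mul, mul_one]

/-- Effect of the push on the vertex. -/
theorem vtx_push {a : Fin n → Fin d → ℝ} {I : Idx n d} (hI : Good a I) {j : Fin d} {s t : ℝ}
    (ht : 0 ≤ t) (hs : s * vtx a I j = ‖vtx a I‖) :
    Good (a + t • push I j s) I ∧
      vtx (a + t • push I j s) I = (1 + t * ‖vtx a I‖)⁻¹ • vtx a I := by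
  set x := vtx a I with hx
  set q : ℝ := 1 + t * ‖x‖ with hq
  have hq1 : 1 ≤ q := by
    have := mul_nonneg ht (norm_nonneg x)
    linarith
  have hq0 : q ≠ 0 := by linarith
  set b := a + t • push I j s with hb
  have hbk : ∀ (k : Fin d) (y : Fin d → ℝ), b (I k) ⬝ᵥ y = a (I k) ⬝ᵥ y + t * (s * y j) := by
    intro k y
    have h1 : b (I k) = a (I k) + t • s • Pi.single j (1 : ℝ) := by
      rw [hb, Pi.add_apply, Pi.smul_apply, push_mem]
    rw [h1, add_dotProduct, smul_dotProduct, smul_dotProduct]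
    simp
  -- the dual family
  have hdet : (mat b I).det ≠ 0 := by
    apply det_ne_zero_of_dual (fun l => nu a I l - (t * (s * nu a I l j) / q) • x)
    intro k l
    rw [hbk, dotProduct_sub, dotProduct_smul, dot_nu hI.1, hx, dot_vtx hI.1, ← hx, Pi.sub_apply,
      Pi.smul_apply, smul_eq_mul, smul_eq_mul, mul_one]
    have h2 : t * (s * (nu a I l j - t * (s * nu a I l j) / q * x j)) =
        t * (s * nu a I l j) - t * (s * nu a I l j) / q * (t * (s * x j)) := by ring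
    rw [h2, hs]
    have h3 : t * (s * nu a I l j) / q * (t * ‖x‖) =
        t * (s * nu a I l j) - t * (s * nu a I l j) / q := by
      have : t * ‖x‖ = q - 1 := by rw [hq]; ring
      rw [this, mul_sub, mul_one, div_mul_cancel₀ _ hq0]
    rw [h3]
    ring
  have hv : q⁻¹ • x = vtx b I := by
    apply eq_vtx hdet
    intro k
    rw [hbk, dotProduct_smul, hx, dot_vtx hI.1, ← hx, Pi.smul_apply, smul_eq_mul, smul_eq_mul,
      mul_one]
    have h2 : q⁻¹ + t * (s * (q⁻¹ * x j)) = q⁻¹ * (1 + t * (s * x j)) := by ring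
    rw [h2, hs, ← hq, inv_mul_cancel₀ hq0]
  refine ⟨⟨hdet, fun i => ?_⟩, hv.symm⟩
  rw [← hv]
  by_cases hi : ∃ k, I k = i
  · obtain ⟨k, rfl⟩ := hi
    rw [hv, dot_vtx hdet]
  · push Not at hi
    have h1 : b i = a i := by
      rw [hb, Pi.add_apply, Pi.smul_apply, push_notMem I j s hi, smul_zero, add_zero]
    rw [h1, dotProduct_smul, smul_eq_mul, inv_mul_le_iff₀ (by linarith), mul_one]
    exact (hI.2 i).trans hq1

theorem measurable_norm_vtx (I : Idx n d) :
    Measurable fun a : Fin n → Fin d → ℝ => ‖vtx a I‖⁻¹ :=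
  (helper11.TD.measurable_vtx I).norm.inv

theorem vtx_class (c : Fin n → Fin d → ℝ) {σ Rg ρ : ℝ} (hσ : 0 < σ) (hσ1 : σ ≤ 1)
    (hR : 0 ≤ Rg) (hρ : 0 < ρ) (I : Idx n d) (hd : 0 < d) (j : Fin d) {s : ℝ} (hs : |s| = 1) :
    noise c σ {a | (∀ i, n2 (a i - c i) ≤ Rg) ∧ Good a I ∧ ρ < ‖vtx a I‖ ∧
        s * vtx a I j = ‖vtx a I‖} ≤
      ENNReal.ofReal (6 * d * (Rg + 1) / (σ ^ 2 * ρ)) * noise c σ {a | Good a I} := by
  have hd' : (0 : ℝ) < d := by exact_mod_cast hd
  have ht₀ : 0 < σ ^ 2 / (d * (Rg + 1)) := by positivity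
  have h1 := helper39.noise_average c (push I j s) (σ := σ) (Rg := Rg) (t₁ := 0)
    (t₀ := σ ^ 2 / (d * (Rg + 1))) (η := 1 / ρ) hσ hσ1 hR le_rfl ht₀ (by
      rw [sum_n2_push I j hs, zero_add]
      apply le_of_eq
      field_simp) (S := {a | (∀ i, n2 (a i - c i) ≤ Rg) ∧ Good a I ∧ ρ < ‖vtx a I‖ ∧
        s * vtx a I j = ‖vtx a I‖}) (W := {a | Good a I}) (helper11.TD.measurableSet_good I)
      (φ := fun a => ‖vtx a I‖⁻¹) (measurable_norm_vtx I) (by
        rintro a ⟨ha1, ha2, ha3, ha4⟩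
        refine ⟨ha1, fun t ht => ?_⟩
        obtain ⟨h2, h3⟩ := vtx_push ha2 ht.1 ha4
        refine ⟨h2, ?_⟩
        have hx : 0 < ‖vtx a I‖ := hρ.trans ha3
        have hq : 0 < 1 + t * ‖vtx a I‖ := by
          have := mul_nonneg ht.1 hx.le
          linarith
        show |‖vtx (a + t • push I j s) I‖⁻¹ - t| ≤ 1 / ρ
        rw [h3, norm_smul, norm_inv, Real.norm_of_nonneg hq.le, mul_inv, inv_inv]
        have h4 : (1 + t * ‖vtx a I‖) * ‖vtx a I‖⁻¹ - t = ‖vtx a I‖⁻¹ := by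
          field_simp
          ring
        rw [h4, abs_of_pos (inv_pos.mpr hx), one_div]
        exact inv_anti₀ hρ ha3.le)
  refine h1.trans (le_of_eq ?_)
  congr 2
  field_simp

/-- (8c) Far vertices are rare. -/
theorem vtx_bound (c : Fin n → Fin d → ℝ) {σ Rg ρ : ℝ} (hσ : 0 < σ) (hσ1 : σ ≤ 1)
    (hR : 0 ≤ Rg) (hρ : 0 < ρ) (I : Idx n d) :
    noise c σ {a | (∀ i, n2 (a i - c i) ≤ Rg) ∧ Good a I ∧ ρ < ‖vtx a I‖} ≤
      ENNReal.ofReal (12 * d ^ 2 * (Rg + 1) / (σ ^ 2 * ρ)) * noise c σ {a | Good a I} := by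
  rcases Nat.eq_zero_or_pos d with hd | hd
  · subst hd
    have h1 : {a : Fin n → Fin 0 → ℝ | (∀ i, n2 (a i - c i) ≤ Rg) ∧ Good a I ∧
        ρ < ‖vtx a I‖} = ∅ := by
      ext a
      simp only [Set.mem_ofPred_eq, Set.mem_empty_iff_false, iff_false]
      rintro ⟨_, _, h⟩
      have h2 : vtx a I = 0 := Subsingleton.elim _ _
      rw [h2, norm_zero] at h
      linarith
    rw [h1, measure_empty]
    exact bot_le
  have hne : Nonempty (Fin d) := ⟨⟨0, hd⟩⟩
  set sg : Bool → ℝ := fun b => if b then 1 else -1 with hsg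
  have hsg1 : ∀ b, |sg b| = 1 := by
    intro b
    cases b <;> simp [hsg]
  have hsub : {a : Fin n → Fin d → ℝ | (∀ i, n2 (a i - c i) ≤ Rg) ∧ Good a I ∧
      ρ < ‖vtx a I‖} ⊆ ⋃ q : Fin d × Bool, {a | (∀ i, n2 (a i - c i) ≤ Rg) ∧ Good a I ∧
        ρ < ‖vtx a I‖ ∧ sg q.2 * vtx a I q.1 = ‖vtx a I‖} := by
    rintro a ⟨h1, h2, h3⟩
    obtain ⟨j, hj⟩ : ∃ j, ‖vtx a I‖ = ‖vtx a I j‖ := by
      obtain ⟨j, -, hj⟩ := Finset.exists_mem_eq_sup' (Finset.univ_nonempty (α := Fin d))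
        (fun j => ‖vtx a I j‖)
      refine ⟨j, ?_⟩
      rw [← hj]
      apply le_antisymm
      · rw [pi_norm_le_iff_of_nonneg]
        · intro k
          exact Finset.le_sup' (fun j => ‖vtx a I j‖) (Finset.mem_univ k)
        · rw [hj]
          exact norm_nonneg _
      · rw [hj]
        exact norm_le_pi_norm _ j
    rw [Real.norm_eq_abs (vtx a I j)] at hj
    rcases le_total 0 (vtx a I j) with h | h
    · refine Set.mem_iUnion.mpr ⟨(j, true), h1, h2, h3, ?_⟩
      rw [hj, abs_of_nonneg h]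
      simp [hsg]
    · refine Set.mem_iUnion.mpr ⟨(j, false), h1, h2, h3, ?_⟩
      rw [hj, abs_of_nonpos h]
      simp [hsg]
  refine (measure_mono hsub).trans ((measure_iUnion_fintype_le _ _).trans ?_)
  calc ∑ q : Fin d × Bool, noise c σ {a | (∀ i, n2 (a i - c i) ≤ Rg) ∧ Good a I ∧
        ρ < ‖vtx a I‖ ∧ sg q.2 * vtx a I q.1 = ‖vtx a I‖}
      ≤ ∑ _q : Fin d × Bool, ENNReal.ofReal (6 * d * (Rg + 1) / (σ ^ 2 * ρ)) *
          noise c σ {a | Good a I} :=
        Finset.sum_le_sum fun q _ => vtx_class c hσ hσ1 hR hρ I hd q.1 (hsg1 q.2)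
    _ = ENNReal.ofReal (12 * d ^ 2 * (Rg + 1) / (σ ^ 2 * ρ)) * noise c σ {a | Good a I} := by
        rw [Finset.sum_const, Finset.card_univ, Fintype.card_prod, Fintype.card_fin,
          Fintype.card_bool, nsmul_eq_mul, ← mul_assoc]
        congr 1
        rw [← ENNReal.ofReal_natCast, ← ENNReal.ofReal_mul (Nat.cast_nonneg _)]
        congr 1
        push_cast
        ring

end Pool.Agent.H.MP_0cad2f_co.helper94
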