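import Pool.Agent.H.MP_0cad2f_co.helper47.Defs
import Pool.Agent.H.MP_0cad2f_co.helper11.Law
import Pool.Agent.H.MP_0cad2f_co.helper11.Gauss

/-!
Small ball estimate for a linear functional of a Gaussian vector, and the condition number of one
block of constraints.
-/

set_option autoImplicit false

namespace Pool.Agent.H.MP_0cad2f_co.helper94

open MeasureTheory ProbabilityTheory Finset Matrix
open scoped NNReal ENNReal
open Pool.Agent.H.MP_0cad2f_co.helper47 (gau noise n2 Idx mat nu vtx Good n2_sq n2_nonneg n2_smul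
  dot_nu eq_nu sum_smul_nu eq_of_dot_eq n2_sum_le abs_dot_le dot_self_nonneg)

variable {n d : ℕ}

/-- The Gaussian density is at most `1 / (2 σ)`. -/
theorem gauss_interval (m : ℝ) {σ : ℝ} (hσ : 0 < σ) (δ : ℝ) :
    gaussianReal m (Real.toNNReal (σ ^ 2)) {x | |x| ≤ δ} ≤ ENNReal.ofReal (δ / σ) := by
  have hv : (Real.toNNReal (σ ^ 2) : ℝ) = σ ^ 2 := Real.coe_toNNReal _ (sq_nonneg σ)
  have hv0 : Real.toNNReal (σ ^ 2) ≠ 0 := by
    intro h0
    rw [h0] at hv
    have := pow_pos hσ 2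
    simp at hv
    rw [← hv] at this
    simp at this
  have hset : {x : ℝ | |x| ≤ δ} = Set.Icc (-δ) δ := by
    ext x
    simp [abs_le]
  rw [hset, gaussianReal_apply _ hv0]
  have hpdf : ∀ x : ℝ, gaussianPDF m (Real.toNNReal (σ ^ 2)) x ≤ ENNReal.ofReal (1 / (2 * σ)) := by
    intro x
    rw [gaussianPDF]
    apply ENNReal.ofReal_le_ofReal
    rw [gaussianPDFReal, hv]
    have h3 : Real.sqrt (2 * Real.pi * σ ^ 2) = Real.sqrt (2 * Real.pi) * σ := by
      rw [Real.sqrt_mul (by positivity), Real.sqrt_sq hσ.le]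
    have h4 : (2 : ℝ) ≤ Real.sqrt (2 * Real.pi) := by
      rw [show (2 : ℝ) = Real.sqrt (2 ^ 2) by rw [Real.sqrt_sq (by norm_num)]]
      apply Real.sqrt_le_sqrt
      have := Real.pi_gt_three
      rw [Real.sqrt_sq (by norm_num)]
      nlinarith
    have h5 : Real.exp (-(x - m) ^ 2 / (2 * σ ^ 2)) ≤ 1 := by
      rw [Real.exp_le_one_iff]
      apply div_nonpos_of_nonpos_of_nonneg
      · nlinarith [sq_nonneg (x - m)]
      · positivity
    rw [h3, one_div]
    have h6 : (Real.sqrt (2 * Real.pi) * σ)⁻¹ ≤ (2 * σ)⁻¹ := by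
      apply inv_anti₀ (by positivity)
      exact mul_le_mul_of_nonneg_right h4 hσ.le
    calc (Real.sqrt (2 * Real.pi) * σ)⁻¹ * Real.exp (-(x - m) ^ 2 / (2 * σ ^ 2))
        ≤ (Real.sqrt (2 * Real.pi) * σ)⁻¹ * 1 :=
          mul_le_mul_of_nonneg_left h5 (by positivity)
      _ ≤ (2 * σ)⁻¹ := by rw [mul_one]; exact h6
  calc ∫⁻ x in Set.Icc (-δ) δ, gaussianPDF m (Real.toNNReal (σ ^ 2)) x
      ≤ ∫⁻ _x in Set.Icc (-δ) δ, ENNReal.ofReal (1 / (2 * σ)) :=
        setLIntegral_mono' measurableSet_Icc fun x _ => hpdf x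
    _ = ENNReal.ofReal (1 / (2 * σ)) * ENNReal.ofReal (2 * δ) := by
        rw [setLIntegral_const, Real.volume_Icc]
        congr 2
        ring
    _ = ENNReal.ofReal (δ / σ) := by
        rw [← ENNReal.ofReal_mul (by positivity)]
        congr 1
        field_simp

/-- Small ball estimate for a linear functional of a Gaussian vector. -/
theorem gau_small (c : Fin d → ℝ) {σ : ℝ} (hσ : 0 < σ) {u : Fin d → ℝ} (hu : n2 u = 1) (δ : ℝ) :
    gau c σ {x | |u ⬝ᵥ x| ≤ δ} ≤ ENNReal.ofReal (δ / σ) := by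
  have hmeas : Measurable (fun b : Fin d → ℝ => ∑ j, b j * u j) := by fun_prop
  have h1 : {x : Fin d → ℝ | |u ⬝ᵥ x| ≤ δ} =
      (fun b : Fin d → ℝ => ∑ j, b j * u j) ⁻¹' {x | |x| ≤ δ} := by
    ext x
    rw [Set.mem_ofPred_eq, Set.mem_preimage, Set.mem_ofPred_eq, dotProduct_comm]
    rfl
  have hm : MeasurableSet {x : ℝ | |x| ≤ δ} := measurableSet_le (by fun_prop) measurable_const
  rw [h1, gau, ← Measure.map_apply hmeas hm, helper11.law]
  have h2 : helper11.nsq u = 1 := by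
    have h3 : (helper11.nsq u : ℝ) = 1 := by
      rw [helper11.nsq_coe]
      have h4 := n2_sq u
      rw [hu, dotProduct] at h4
      rw [← one_pow 2, h4]
      exact sum_congr rfl fun j _ => by ring
    exact_mod_cast h3
  rw [h2, mul_one]
  exact gauss_interval _ hσ δ

/-- A unit vector orthogonal to the rows `B l`, `l ≠ k`, independent of row `k`. -/
theorem exists_normal (a : Fin n → Fin d → ℝ) (B : Idx n d) (k : Fin d) :
    ∃ u : Fin d → ℝ, n2 u = 1 ∧ ∀ l, l ≠ k → a (B l) ⬝ᵥ u = 0 := by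
  have hdet : (Matrix.updateRow (mat a B) k 0).det = 0 :=
    Matrix.det_eq_zero_of_row_eq_zero k fun j => by simp
  obtain ⟨w, hw, hw2⟩ := Matrix.exists_mulVec_eq_zero_iff.mpr hdet
  have hn : 0 < n2 w := by
    rcases (n2_nonneg w).lt_or_eq with h | h
    · exact h
    · exfalso
      apply hw
      have h2 := n2_sq w
      rw [← h] at h2
      have h3 : w ⬝ᵥ w = 0 := by rw [← h2]; norm_num
      exact dotProduct_self_eq_zero.mp h3
  refine ⟨(n2 w)⁻¹ • w, ?_, fun l hl => ?_⟩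
  · rw [n2_smul, abs_of_pos (inv_pos.mpr hn), inv_mul_cancel₀ hn.ne']
  · have h4 := congrFun hw2 l
    rw [Matrix.mulVec, Matrix.updateRow_ne hl] at h4
    rw [dotProduct_smul]
    have h5 : a (B l) ⬝ᵥ w = 0 := h4
    rw [h5, smul_zero]

/-- If the functional given by the unit normal is not small at row `k`, the dual vector is
bounded. -/
theorem nu_of_normal {a : Fin n → Fin d → ℝ} {B : Idx n d} (hdet : (mat a B).det ≠ 0) {k : Fin d}
    {u : Fin d → ℝ} (hu : ∀ l, l ≠ k → a (B l) ⬝ᵥ u = 0) (hk : a (B k) ⬝ᵥ u ≠ 0) :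
    nu a B k = (a (B k) ⬝ᵥ u)⁻¹ • u := by
  symm
  apply eq_nu hdet
  intro l
  rw [dotProduct_smul, smul_eq_mul]
  split_ifs with h
  · rw [h, inv_mul_cancel₀ hk]
  · rw [hu l h, mul_zero]

end Pool.Agent.H.MP_0cad2f_co.helper94
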